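import Pool.Agent.Helper252_Enum.V5_final

set_option autoImplicit false

namespace Pool.Agent.Results.MP_9f774b_al.NilpotentOrdersBelow

/-- Isomorphism of two group structures on `Fin N`. -/
def Isom (N : ℕ) (g h : Group (Fin N)) : Prop :=
  Nonempty (@MulEquiv (Fin N) (Fin N)
    (@Semigroup.toMul _ (@Monoid.toSemigroup _ (@DivInvMonoid.toMonoid _ (@Group.toDivInvMonoid _ g))))
    (@Semigroup.toMul _ (@Monoid.toSemigroup _ (@DivInvMonoid.toMonoid _ (@Group.toDivInvMonoid _ h)))))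

/-- The number of isomorphism classes of groups of order `N`. -/
noncomputable def numGroups (N : ℕ) : ℕ := Nat.card (Quot (Isom N))

/-- The number of isomorphism classes of nilpotent groups of order `N`. -/
noncomputable def numNilpotent (N : ℕ) : ℕ :=
  Nat.card {c : Quot (Isom N) // ∃ g : Group (Fin N), Quot.mk (Isom N) g = c ∧
    @Group.IsNilpotent (Fin N) g}

/-- For all `m ≥ M` the number of nilpotent groups of order less than `2 ^ m` is at most
`2 ^ (-m² / 200)` times the number of groups of order `2 ^ m`. -/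
theorem result : ∃ M : ℕ, ∀ m : ℕ, M ≤ m →
    (2 : ℝ) ^ ((m : ℝ) ^ 2 / 200) * ∑ n ∈ Finset.Ico 1 (2 ^ m), (numNilpotent n : ℝ) ≤
      (numGroups (2 ^ m) : ℝ) := by
  obtain ⟨k₀, h⟩ := Pool.Agent.Helper252_Enum.sum_small
  refine ⟨k₀, fun m hm => ?_⟩
  have h1 := h m hm
  have h2 : ∑ n ∈ Finset.Ico 1 (2 ^ m), (numNilpotent n : ℝ) ≤
      ∑ n ∈ (Finset.Ico 1 (2 ^ (m + 1))).erase (2 ^ m),
        (Pool.Agent.Helper252_Enum.gnuNil n : ℝ) := by
    refine Finset.sum_le_sum_of_subset_of_nonneg ?_ (fun _ _ _ => Nat.cast_nonneg _)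
    intro n hn
    rw [Finset.mem_Ico] at hn
    rw [Finset.mem_erase, Finset.mem_Ico, pow_succ]
    omega
  have h3 : (0 : ℝ) ≤ (2 : ℝ) ^ ((m : ℝ) ^ 2 / 200) := by positivity
  refine (mul_le_mul_of_nonneg_left h2 h3).trans ?_
  rw [mul_comm]
  exact h1

end Pool.Agent.Results.MP_9f774b_al.NilpotentOrdersBelow
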